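import Pool.Agent.V7H82.QI.UMain

/-!
# Iterating quadratic triangular maps over the field with two elements

A system `S` is a finite list of triples `(i, j, k)` with `j, k < i`; it defines the map
`x_i ↦ x_i + q_i(x)`, where `q_i` is the sum over `F_2` of the monomials `x_j x_k` for the triples
`(i, j, k)` in `S`. The coordinate `x_0` is the constant one, so `q_i` is an arbitrary polynomial of
degree at most two in the coordinates below `x_i`. A triple is a Toffoli gate with the target `i`
and the controls `j` and `k`. These maps are permutations; on the first `m` coordinates their order
is a power of two.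
-/

namespace Pool.Agent.Results.MP_f404b1_lc.QuadraticIterationH82

open Pool.Agent.NPC Pool.Agent.H623R2.PS Pool.Agent.V7H82.QI

/-- **One Toffoli gate per wire.** There is a sequence `S 1, S 2, …` of triangular systems with
pairwise different targets, computable in polynomial time together with numbers `e n` (in unary) and
`i n`, such that it is `PSPACE`-complete to decide whether the coordinate `i n` is `1` after
`2 ^ e n` steps of `S n` from a given point. For systems, points and times (in binary) given in the
input the problem is `PSPACE`-complete, and it remains `PSPACE`-hard if the point is `x_0 = 1` with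
all other coordinates `0` and the time is a power of two; for maps of degree one it is in `P`. So
`P = PSPACE` if and only if the iterates of triangular maps of degree two can be computed in
polynomial time. -/
theorem result :
    (∃ (S : ℕ → Sys) (e i : ℕ → ℕ),
      PolyTime (fun x : List Bool =>
        bits (S x.length, List.replicate (e x.length) (), i x.length)) ∧
      (∀ n, Triangular (S n) ∧ ((S n).map fun p => p.1).Nodup) ∧
      PSPACEComplete (lang fun I : List Unit × List ℕ =>
        (step (S I.1.length))^[2 ^ e I.1.length] (start I.2) (i I.1.length) = 1)) ∧
    PSPACEComplete (lang QIter) ∧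
    PSPACEHard (lang fun I : QInst => QIter I ∧ I.2.1 = [] ∧ ∃ e, I.2.2.1 = 2 ^ e) ∧
    InP (lang fun I : QInst => QIter I ∧ ∀ p ∈ I.1, p.2.2 = 0) ∧
    ((∀ L, InPSPACE L → InP L) ↔ InP (lang QIter)) ∧
    ∀ S, Triangular S → Function.Bijective (step S) :=
  ⟨⟨Su, eu, iu, uniform, fun n => ⟨Su_triangular n, Su_nodup n⟩, uiter_mem, uiter_hard⟩,
    qiter_complete, qiter_hard0, linear_inP, qiter_collapse, fun _ => step_bijective⟩

end Pool.Agent.Results.MP_f404b1_lc.QuadraticIterationH82
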